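import Pool.Agent.Helper57.SS.Goals

/-!
# HZP: Fejer type measures on the two dimensional torus with prescribed Fourier coefficients
-/

set_option autoImplicit false

namespace Pool.Agent.Helper69.SS

open MeasureTheory Filter Topology Pool.Agent.Helper57.SS

theorem hzp_int_fourier (n : ℤ) : ∫ t : Ci, (fourier n t : ℂ) = if n = 0 then 1 else 0 := by
  have h1 : (volume : Measure Ci) = AddCircle.haarAddCircle := by
    rw [AddCircle.volume_eq_smul_haarAddCircle]
    simp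
  have h2 := congrFun (fourierCoeff_fourier (T := 1) n) 0
  unfold fourierCoeff at h2
  simp only [neg_zero, fourier_zero, one_smul] at h2
  rw [h1, h2, Pi.single_apply]
  by_cases hn : n = 0
  · simp [hn]
  · simp [hn, Ne.symm hn]

theorem hzp_int_e2 (p : ℤ × ℤ) : ∫ z : Ci × Ci, e2 p z = if p = 0 then 1 else 0 := by
  unfold e2
  rw [Measure.volume_eq_prod, integral_prod_mul (fun t : Ci => (fourier p.1 t : ℂ)) (fun t : Ci => (fourier p.2 t : ℂ)),
    hzp_int_fourier, hzp_int_fourier]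
  by_cases h1 : p.1 = 0
  · by_cases h2 : p.2 = 0
    · simp [h1, h2, Prod.ext_iff]
    · simp [h1, h2, Prod.ext_iff]
  · simp [h1, Prod.ext_iff]

theorem hzp_e2_add (p q : ℤ × ℤ) (z : Ci × Ci) : e2 (p + q) z = e2 p z * e2 q z := by
  unfold e2
  rw [Prod.fst_add, Prod.snd_add, fourier_add, fourier_add]
  ring

theorem hzp_e2_neg (p : ℤ × ℤ) (z : Ci × Ci) : e2 (-p) z = (starRingEnd ℂ) (e2 p z) := by
  unfold e2
  rw [Prod.fst_neg, Prod.snd_neg, fourier_neg, fourier_neg, map_mul]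

theorem hzp_e2_cont (p : ℤ × ℤ) : Continuous (e2 p) := by
  unfold e2
  exact ((fourier p.1).continuous.comp continuous_fst).mul ((fourier p.2).continuous.comp continuous_snd)

theorem hzp_psd {φ : ℤ × ℤ → ℝ}
    (h : ∀ c : (ℤ × ℤ) →₀ ℝ, 0 ≤ c.sum fun p u => c.sum fun q v => u * v * φ (p - q))
    (F : Finset (ℤ × ℤ)) (x : ℤ × ℤ → ℝ) : 0 ≤ ∑ u ∈ F, ∑ v ∈ F, x u * x v * φ (u - v) := by
  classical
  have h1 := h (Finsupp.onFinset F (fun u => if u ∈ F then x u else 0) (fun a ha => by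
    by_contra hc
    exact ha (if_neg hc)))
  rw [Finsupp.onFinset_sum _ (by intro a; simp)] at h1
  refine h1.trans (le_of_eq ?_)
  refine Finset.sum_congr rfl fun u hu => ?_
  rw [Finsupp.onFinset_sum _ (by intro a; simp)]
  refine Finset.sum_congr rfl fun v hv => ?_
  rw [if_pos hu, if_pos hv]

theorem hzp_count (N : ℕ) (hN : 0 < N) (m : ℤ) :
    (((min (N : ℤ) (N + m) - max 0 m).toNat : ℕ) : ℝ) = N * max 0 (1 - |(m : ℝ)| / N) := by
  have hN' : (0 : ℝ) < N := by exact_mod_cast hN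
  have h1 : (N : ℝ) * max 0 (1 - |(m : ℝ)| / N) = max 0 ((N : ℝ) - |(m : ℝ)|) := by
    rw [mul_max_of_nonneg _ _ hN'.le, mul_zero, mul_sub, mul_one, mul_div_cancel₀ _ hN'.ne']
  rw [h1]
  have h2 : (min (N : ℤ) (N + m) - max 0 m) = N - |m| := by
    rcases le_total 0 m with hm | hm
    · rw [abs_of_nonneg hm, max_eq_right hm, min_eq_left (by omega)]
    · rw [abs_of_nonpos hm, max_eq_left hm, min_eq_right (by omega)]
      ring
  rw [h2]
  have h3 : (((((N : ℤ) - |m|).toNat : ℕ) : ℤ) : ℝ) = ((max 0 ((N : ℤ) - |m|) : ℤ) : ℝ) := by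
    congr 1
    omega
  have h4 : (((((N : ℤ) - |m|).toNat : ℕ) : ℤ) : ℝ) = ((((N : ℤ) - |m|).toNat : ℕ) : ℝ) := by
    norm_cast
  rw [← h4, h3]
  push_cast
  rfl

theorem hzp_sum (N : ℕ) (hN : 0 < N) (φ : ℤ × ℤ → ℝ) (p : ℤ × ℤ) :
    ∑ u ∈ (Finset.Ico (0 : ℤ) N) ×ˢ (Finset.Ico (0 : ℤ) N), ∑ v ∈ (Finset.Ico (0 : ℤ) N) ×ˢ (Finset.Ico (0 : ℤ) N),
      (if u - v = p then φ (u - v) else 0) =
    (N : ℝ) ^ 2 * (φ p * (max 0 (1 - |(p.1 : ℝ)| / N) * max 0 (1 - |(p.2 : ℝ)| / N))) := by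
  classical
  set F := (Finset.Ico (0 : ℤ) N) ×ˢ (Finset.Ico (0 : ℤ) N) with hF
  have h1 : ∀ u ∈ F, ∑ v ∈ F, (if u - v = p then φ (u - v) else 0) = if u - p ∈ F then φ p else 0 := by
    intro u _
    have e : ∀ v ∈ F, (if u - v = p then φ (u - v) else 0) = if v = u - p then φ p else 0 := by
      intro v _
      by_cases hv : u - v = p
      · have hv' : v = u - p := by rw [← hv]; abel
        rw [if_pos hv, if_pos hv', hv]
      · have hv' : ¬ v = u - p := fun e => hv (by rw [e]; abel)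
        rw [if_neg hv, if_neg hv']
    rw [Finset.sum_congr rfl e, Finset.sum_ite_eq']
  rw [Finset.sum_congr rfl h1, ← Finset.sum_filter, Finset.sum_const, nsmul_eq_mul]
  have h2 : F.filter (fun u => u - p ∈ F) =
      (Finset.Ico (max 0 p.1) (min (N : ℤ) (N + p.1))) ×ˢ (Finset.Ico (max 0 p.2) (min (N : ℤ) (N + p.2))) := by
    ext u
    simp only [hF, Finset.mem_filter, Finset.mem_product, Finset.mem_Ico, Prod.fst_sub, Prod.snd_sub]
    omega
  rw [h2, Finset.card_product, Int.card_Ico, Int.card_Ico, Nat.cast_mul, hzp_count N hN, hzp_count N hN]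
  ring

theorem gHZP : G_HZP := by
  intro φ hev hpsd N hN
  classical
  set F := (Finset.Ico (0 : ℤ) N) ×ˢ (Finset.Ico (0 : ℤ) N) with hF
  have hN' : (0 : ℝ) < N := by exact_mod_cast hN
  set P : Ci × Ci → ℝ := fun z => ((N : ℝ) ^ 2)⁻¹ * ∑ u ∈ F, ∑ v ∈ F, φ (u - v) * (e2 (v - u) z).re with hP
  have hPcont : Continuous P := by
    rw [hP]
    refine continuous_const.mul (continuous_finsetSum _ fun u _ => continuous_finsetSum _ fun v _ => ?_)
    exact continuous_const.mul (Complex.continuous_re.comp (hzp_e2_cont _))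
  have hsub : ∀ (u v : ℤ × ℤ) (z : Ci × Ci), e2 (v - u) z = e2 v z * (starRingEnd ℂ) (e2 u z) := by
    intro u v z
    rw [sub_eq_add_neg, hzp_e2_add, hzp_e2_neg]
  have hPnn : ∀ z, 0 ≤ P z := by
    intro z
    refine mul_nonneg (by positivity) ?_
    have e : ∑ u ∈ F, ∑ v ∈ F, φ (u - v) * (e2 (v - u) z).re =
        (∑ u ∈ F, ∑ v ∈ F, (e2 u z).re * (e2 v z).re * φ (u - v)) +
        ∑ u ∈ F, ∑ v ∈ F, (e2 u z).im * (e2 v z).im * φ (u - v) := by
      rw [← Finset.sum_add_distrib]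
      refine Finset.sum_congr rfl fun u _ => ?_
      rw [← Finset.sum_add_distrib]
      refine Finset.sum_congr rfl fun v _ => ?_
      rw [hsub, Complex.mul_re, Complex.conj_re, Complex.conj_im]
      ring
    rw [e]
    exact add_nonneg (hzp_psd hpsd F _) (hzp_psd hpsd F _)
  have hPc : ∀ z, ((P z : ℝ) : ℂ) = (((N : ℝ) ^ 2)⁻¹ : ℝ) * ∑ u ∈ F, ∑ v ∈ F, ((φ (u - v) : ℝ) : ℂ) * e2 (v - u) z := by
    intro z
    have hre : ∀ w : ℂ, ((w.re : ℝ) : ℂ) = (w + (starRingEnd ℂ) w) / 2 := fun w => Complex.re_eq_add_conj w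
    have e1 : ∑ u ∈ F, ∑ v ∈ F, ((φ (u - v) : ℝ) : ℂ) * e2 (u - v) z =
        ∑ u ∈ F, ∑ v ∈ F, ((φ (u - v) : ℝ) : ℂ) * e2 (v - u) z := by
      rw [Finset.sum_comm]
      refine Finset.sum_congr rfl fun u _ => Finset.sum_congr rfl fun v _ => ?_
      have : φ (v - u) = φ (u - v) := by rw [← hev (u - v), neg_sub]
      rw [this]
    rw [hP]
    push_cast
    congr 1
    have e2' : ∀ u ∈ F, ∀ v ∈ F, ((φ (u - v) : ℝ) : ℂ) * (((e2 (v - u) z).re : ℝ) : ℂ) =
        (((φ (u - v) : ℝ) : ℂ) * e2 (v - u) z) / 2 + (((φ (u - v) : ℝ) : ℂ) * e2 (u - v) z) / 2 := by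
      intro u _ v _
      rw [hre, ← hzp_e2_neg, neg_sub]
      ring
    rw [Finset.sum_congr rfl fun u hu => Finset.sum_congr rfl fun v hv => e2' u hu v hv]
    simp only [Finset.sum_add_distrib, ← Finset.sum_div]
    rw [e1]
    ring
  have hPm : Measurable fun z => ENNReal.ofReal (P z) := hPcont.measurable.ennreal_ofReal
  have hPint : Integrable P (volume : Measure (Ci × Ci)) := by
    have := hPcont.continuousOn.integrableOn_compact (μ := (volume : Measure (Ci × Ci))) isCompact_univ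
    rwa [integrableOn_univ] at this
  refine ⟨(volume : Measure (Ci × Ci)).withDensity fun z => ENNReal.ofReal (P z),
    isFiniteMeasure_withDensity_ofReal hPint.2, fun p => ?_⟩
  rw [integral_withDensity_eq_integral_toReal_smul hPm (Eventually.of_forall fun z => ENNReal.ofReal_lt_top)]
  have e1 : ∀ z : Ci × Ci, (ENNReal.ofReal (P z)).toReal • e2 p z =
      (((N : ℝ) ^ 2)⁻¹ : ℝ) * ∑ u ∈ F, ∑ v ∈ F, ((φ (u - v) : ℝ) : ℂ) * e2 (p - (u - v)) z := by
    intro z
    rw [ENNReal.toReal_ofReal (hPnn z), Complex.real_smul, hPc, mul_assoc, Finset.sum_mul]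
    congr 1
    refine Finset.sum_congr rfl fun u _ => ?_
    rw [Finset.sum_mul]
    refine Finset.sum_congr rfl fun v _ => ?_
    rw [mul_assoc, ← hzp_e2_add]
    congr 2
    abel
  simp only [e1]
  rw [integral_const_mul, integral_finsetSum]
  · have e3 : ∀ u ∈ F, ∫ z : Ci × Ci, ∑ v ∈ F, ((φ (u - v) : ℝ) : ℂ) * e2 (p - (u - v)) z =
        ∑ v ∈ F, (((if u - v = p then φ (u - v) else 0 : ℝ)) : ℂ) := by
      intro u _
      rw [integral_finsetSum]
      · refine Finset.sum_congr rfl fun v _ => ?_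
        rw [integral_const_mul, hzp_int_e2]
        by_cases h : u - v = p
        · rw [if_pos h, h, sub_self, if_pos rfl, mul_one]
        · rw [if_neg h, if_neg (fun e => h (sub_eq_zero.mp e).symm), mul_zero, Complex.ofReal_zero]
      · intro v _
        have hc : Continuous fun z : Ci × Ci => ((φ (u - v) : ℝ) : ℂ) * e2 (p - (u - v)) z :=
          continuous_const.mul (hzp_e2_cont _)
        have := hc.continuousOn.integrableOn_compact (μ := (volume : Measure (Ci × Ci))) isCompact_univ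
        rwa [integrableOn_univ] at this
    rw [Finset.sum_congr rfl e3]
    have e4 := hzp_sum N hN φ p
    rw [← hF] at e4
    have e5 : ∑ u ∈ F, ∑ v ∈ F, (((if u - v = p then φ (u - v) else 0 : ℝ)) : ℂ) =
        (((∑ u ∈ F, ∑ v ∈ F, (if u - v = p then φ (u - v) else 0 : ℝ)) : ℝ) : ℂ) := by
      push_cast
      rfl
    rw [e5, e4, ← Complex.ofReal_mul]
    congr 1
    field_simp
  · intro u _
    have hc : Continuous fun z : Ci × Ci => ∑ v ∈ F, ((φ (u - v) : ℝ) : ℂ) * e2 (p - (u - v)) z :=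
      continuous_finsetSum _ fun v _ => continuous_const.mul (hzp_e2_cont _)
    have := hc.continuousOn.integrableOn_compact (μ := (volume : Measure (Ci × Ci))) isCompact_univ
    rwa [integrableOn_univ] at this

end Pool.Agent.Helper69.SS
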